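import Pool.Agent.Q43.QF.Lift

/-! The value of `σ(1)` for Fermat polynomials. -/

namespace Q43.QF

open MvPolynomial


section arith

/-- Congruence step: exponents hit by `u` after multiplying by `x^γ`. -/
lemma arith1 {p a d ν κ γ β : ℕ} (hp : p.Prime) (hpd : Nat.Coprime p d)
    (hγ : γ + d * (p * a + ν) + 1 = p ^ 2) (hν : ν ≤ p - 1) (h : γ + d * κ = p * β + (p - 1)) :
    ∃ t, κ = ν + p * t ∧ β + 1 + d * a = p + d * t := by
  have hpp := hp.two_le
  have e1 : (d : ℤ) * ((κ : ℤ) - ν) = p * (β + 1 + d * a - p) := by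
    have h1 : (γ : ℤ) + d * (p * a + ν) + 1 = p ^ 2 := by exact_mod_cast hγ
    have h2 : (γ : ℤ) + d * κ = p * β + (p - 1) := by
      have : ((p - 1 : ℕ) : ℤ) = (p : ℤ) - 1 := by
        push_cast [Nat.cast_sub hp.one_le]; ring
      rw [← this]; exact_mod_cast h
    linear_combination h2 - h1
  have hdvd : (p : ℤ) ∣ (κ : ℤ) - ν := by
    have : (p : ℤ) ∣ d * ((κ : ℤ) - ν) := ⟨_, e1⟩
    refine (Int.isCoprime_iff_gcd_eq_one.2 ?_).dvd_of_dvd_mul_left this
    simpa using hpd
  have hle : ν ≤ κ := by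
    by_contra hlt
    push Not at hlt
    obtain ⟨c, hc⟩ := hdvd
    have h1 : (p : ℤ) * c < 0 := by rw [← hc]; omega
    have h2 : c < 0 := by
      by_contra h3
      push Not at h3
      have : 0 ≤ (p : ℤ) * c := by positivity
      omega
    have h3 : (p : ℤ) * c ≤ -p := by nlinarith
    have h4 : (p : ℤ) * c > -p := by
      rw [← hc]; omega
    omega
  obtain ⟨c, hc⟩ := hdvd
  have hc0 : 0 ≤ c := by
    by_contra h3
    push Not at h3
    have : (p : ℤ) * c < 0 := by
      have : (0 : ℤ) < p := by exact_mod_cast hp.pos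
      nlinarith
    omega
  lift c to ℕ using hc0
  refine ⟨c, ?_, ?_⟩
  · have : (κ : ℤ) = ν + p * c := by linarith
    exact_mod_cast this
  · have h5 : (p : ℤ) * (d * c) = p * (β + 1 + d * a - p) := by
      rw [← e1, hc]; ring
    have hp0 : (p : ℤ) ≠ 0 := by exact_mod_cast hp.ne_zero
    have h6 := mul_left_cancel₀ hp0 h5
    have : (β : ℤ) + 1 + d * a = p + d * c := by linarith
    exact_mod_cast this

lemma multinomial_val {p n : ℕ} (hp : p.Prime) (ν : Fin n → ℕ) (hν : ∀ i, ν i ≤ p - 1)
    (hs : ∑ i, ν i = 2 * p - 1) :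
    ∃ M, Nat.multinomial Finset.univ ν = p * M ∧ ¬ p ∣ M := by
  have : Fact p.Prime := ⟨hp⟩
  have hpp := hp.two_le
  have hspec := Nat.multinomial_spec Finset.univ ν
  rw [hs] at hspec
  have hprod : ¬ p ∣ ∏ i, (ν i).factorial := by
    rw [Prime.dvd_finsetProd_iff hp.prime]
    rintro ⟨i, _, hi⟩
    have := (hp.dvd_factorial).1 hi
    have := hν i
    omega
  have hval : padicValNat p (2 * p - 1).factorial = 1 := by
    have h1 : 2 * p - 1 = p * 1 + (p - 1) := by omega
    rw [h1, padicValNat_factorial_mul_add 1 (by omega), padicValNat_factorial_mul]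
    simp
  have hf0 : (2 * p - 1).factorial ≠ 0 := Nat.factorial_ne_zero _
  have hm0 : Nat.multinomial Finset.univ ν ≠ 0 := by
    intro h0
    rw [h0, mul_zero] at hspec
    exact hf0 hspec.symm
  have hp0 : ∏ i, (ν i).factorial ≠ 0 := by
    intro h0
    rw [h0, zero_mul] at hspec
    exact hf0 hspec.symm
  have hv2 : padicValNat p (Nat.multinomial Finset.univ ν) = 1 := by
    have := padicValNat.mul (p := p) hp0 hm0
    rw [hspec, hval, padicValNat.eq_zero_of_not_dvd hprod] at this
    omega
  have hd : p ∣ Nat.multinomial Finset.univ ν := by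
    have := dvd_iff_padicValNat_ne_zero (p := p) hm0
    rw [this, hv2]; exact one_ne_zero
  obtain ⟨M, hM⟩ := hd
  refine ⟨M, hM, ?_⟩
  rintro ⟨c, rfl⟩
  have hc0 : c ≠ 0 := by
    rintro rfl
    simp at hM
    exact hm0 hM
  rw [hM, padicValNat.mul hp.ne_zero (mul_ne_zero hp.ne_zero hc0),
    padicValNat.mul hp.ne_zero hc0, padicValNat.self hp.one_lt] at hv2
  omega

lemma multinomial_unit {p n a : ℕ} (hp : p.Prime) (hs : n * a = p - 2) :
    ¬ p ∣ Nat.multinomial (Finset.univ : Finset (Fin n)) (fun _ => a) := by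
  have hspec := Nat.multinomial_spec (Finset.univ : Finset (Fin n)) (fun _ => a)
  have h1 : ∑ _i : Fin n, a = p - 2 := by simp [hs]
  rw [h1] at hspec
  intro hd
  have : p ∣ (p - 2).factorial := by
    rw [← hspec]
    exact hd.mul_left _
  have h2 := (hp.dvd_factorial).1 this
  have := hp.two_le
  omega

/-- Existence of the vector `ν`. -/
lemma exists_nu {p n a d : ℕ} (hp : p.Prime) (hp2 : 2 < p) (hn : 3 ≤ n) (hd1 : 1 < d)
    (hna : n * a = p - 2) (hdn : d < n) :
    ∃ ν : Fin n → ℕ, (∀ i, ν i ≤ p - 1) ∧ ∑ i, ν i = 2 * p - 1 ∧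
      ∀ i, d * (p * a + ν i) + 1 ≤ p ^ 2 := by
  -- let `r = p - a d ≥ a + 2 ≥ 3`
  have ha : 1 ≤ a := by
    rcases Nat.eq_zero_or_pos a with h | h
    · subst h; omega
    · exact h
  have hr : a * d + 3 ≤ p := by
    have h1 : a * (d + 1) ≤ n * a := by
      rw [mul_comm n a]; exact Nat.mul_le_mul_left a hdn
    rw [hna] at h1
    have h2 : a * (d + 1) = a * d + a := by ring
    omega
  obtain ⟨r, hr'⟩ : ∃ r, p = a * d + r := ⟨p - a * d, by omega⟩
  have hr3 : 3 ≤ r := by omega
  set Bd := (p * r - 1) / d with hBd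
  have hB1 : d * Bd + 1 ≤ p * r := by
    have h1 : d * Bd ≤ p * r - 1 := Nat.mul_div_le _ _
    have h2 : 0 < p * r := Nat.mul_pos hp.pos (by omega)
    omega
  have hB2 : p * r ≤ d * Bd + d := by
    have h1 : p * r - 1 < d * (Bd + 1) := by
      rw [hBd]
      exact Nat.lt_mul_div_succ _ (by omega)
    rw [Nat.mul_add] at h1
    omega
  have hnB : 2 * p - 1 ≤ n * Bd := by
    -- d * (2p-1) ≤ d * n * Bd
    by_contra hlt
    push Not at hlt
    have hnp : n + 2 ≤ p := by
      have : n * 1 ≤ n * a := Nat.mul_le_mul_left n ha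
      omega
    have h1 : n * (p * r) ≤ n * (d * Bd + d) := Nat.mul_le_mul_left n hB2
    have h2 : n * (d * Bd + d) = d * (n * Bd) + n * d := by ring
    have h3 : d * (n * Bd + 1) ≤ d * (2 * p - 1) := Nat.mul_le_mul_left d (by omega)
    have h4 : d * (2 * p - 1) + n * d = d * (n + (2 * p - 1)) := by ring
    have h5 : d * (n + (2 * p - 1)) ≤ n * (n + (2 * p - 1)) := Nat.mul_le_mul_right _ hdn.le
    have h6 : n * (n + (2 * p - 1)) ≤ n * (p * r) := by
      apply Nat.mul_le_mul_left
      have : p * 3 ≤ p * r := Nat.mul_le_mul_left p hr3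
      omega
    have h7 : d * (n * Bd + 1) = d * (n * Bd) + d := by ring
    omega
  -- cap
  set c := min (p - 1) Bd with hc
  have hnc : 2 * p - 1 ≤ n * c := by
    rcases le_total (p - 1) Bd with h | h
    · rw [hc, min_eq_left h]
      have : 3 * (p - 1) ≤ n * (p - 1) := Nat.mul_le_mul_right _ hn
      omega
    · rw [hc, min_eq_right h]; exact hnB
  -- greedy choice: existence of a vector bounded by c with a given sum ≤ n c
  have key : ∀ (m N : ℕ), N ≤ m * c → ∃ ν : Fin m → ℕ, (∀ i, ν i ≤ c) ∧ ∑ i, ν i = N := by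
    intro m
    induction m with
    | zero => intro N hN; exact ⟨fun _ => 0, fun i => i.elim0, by simp at hN ⊢; omega⟩
    | succ m ih =>
      intro N hN
      obtain ⟨ν, h1, h2⟩ := ih (N - min N c) (by
        rw [Nat.succ_mul] at hN
        rcases le_total N c with h | h
        · rw [min_eq_left h]; omega
        · rw [min_eq_right h]; omega)
      refine ⟨Fin.cons (min N c) ν, ?_, ?_⟩
      · intro i
        refine Fin.cases ?_ (fun j => ?_) i
        · simp
        · simpa using h1 j
      · rw [Fin.sum_univ_succ]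
        simp only [Fin.cons_zero, Fin.cons_succ, h2]
        have := min_le_left N c
        omega
  obtain ⟨ν, h1, h2⟩ := key n (2 * p - 1) hnc
  refine ⟨ν, fun i => (h1 i).trans (min_le_left _ _), h2, fun i => ?_⟩
  have h3 : ν i ≤ Bd := (h1 i).trans (min_le_right _ _)
  have h4 : d * ν i ≤ d * Bd := Nat.mul_le_mul_left d h3
  have h5 : p ^ 2 = d * (p * a) + p * r := by
    rw [sq]; nth_rewrite 2 [hr']; ring
  rw [Nat.mul_add, h5]
  omega

end arith

section comp

variable {p : ℕ} [hp : Fact p.Prime] {k : Type*} [Field k] [CharP k p] [PerfectRing k p] {n : ℕ}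

lemma coeff_u_monomial_mul (γ : Fin n →₀ ℕ) (Q : MvPolynomial (Fin n) k) (β : Fin n →₀ ℕ)
    (h : ∀ m, γ + m = up p β → coeff m Q = 0) :
    coeff β (u (p := p) (monomial γ 1 * Q)) = 0 := by
  rw [coeff_u, coeff_monomial_mul']
  split_ifs with hle
  · rw [h _ (add_tsub_cancel_of_le hle), mul_zero, map_zero]
  · rw [map_zero]

lemma coeff_u_monomial_mul' (γ : Fin n →₀ ℕ) (Q : MvPolynomial (Fin n) k) (β m : Fin n →₀ ℕ)
    (h : γ + m = up p β) :
    coeff β (u (p := p) (monomial γ 1 * Q)) = (frobeniusEquiv k p).symm (coeff m Q) := by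
  rw [coeff_u, ← h, coeff_monomial_mul, one_mul]

/-- Claim 1: `u(g f^{p-1}) = 0`. -/
lemma claim1 {a d : ℕ} (hpd : Nat.Coprime p d) (γ : Fin n →₀ ℕ) (ν : Fin n → ℕ)
    (hγ : ∀ i, γ i + d * (p * a + ν i) + 1 = p ^ 2) (hν : ∀ i, ν i ≤ p - 1)
    (hs : ∑ i, ν i = 2 * p - 1) :
    u (p := p) (monomial γ (1 : k) * fer k n d ^ (p - 1)) = 0 := by
  ext β
  rw [coeff_zero]
  apply coeff_u_monomial_mul
  intro m hm
  apply coeff_fer_pow_eq_zero
  rintro κ hκ rfl
  have h : ∀ i, ν i ≤ κ i := by
    intro i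
    have h1 := DFunLike.congr_fun hm i
    rw [Finsupp.add_apply, ex_apply, up_apply] at h1
    obtain ⟨t, ht, _⟩ := arith1 hp.out hpd (hγ i) (hν i) h1
    rw [ht]; exact Nat.le_add_right _ _
  have h2 : ∑ i, ν i ≤ ∑ i, κ i := Finset.sum_le_sum fun i _ => h i
  have := hp.out.two_le
  omega

/-- Claim 2: `u(g f^{p-1} δ(f))` is a monomial with unit coefficient. -/
lemma claim2 {a d : ℕ} (hd : 0 < d) (hpd : Nat.Coprime p d) (hda : d * a + 1 ≤ p)
    (γ : Fin n →₀ ℕ) (ν : Fin n → ℕ)
    (hγ : ∀ i, γ i + d * (p * a + ν i) + 1 = p ^ 2) (hν : ∀ i, ν i ≤ p - 1)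
    (hs : ∑ i, ν i = 2 * p - 1)
    (δ : MvPolynomial (Fin n) (WittVector p k) → MvPolynomial (Fin n) (WittVector p k))
    (hδ : ∀ b, fl p k n b = b ^ p + p * δ b) :
    ∃ c : k, c ≠ 0 ∧
      u (p := p) (monomial γ (1 : k) * fer k n d ^ (p - 1) * pr p k n (δ (fer (WittVector p k) n d))) =
        monomial (ex 1 (fun _ => p - 1 - d * a)) c := by
  obtain ⟨M, hM, hMp⟩ := multinomial_val hp.out ν hν hs
  have hfer : pr p k n (fer (WittVector p k) n d) = fer k n d := by
    simp [pr, fer]
  -- coefficients of `D = F^{p-1} δ F`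
  have hflF : fl p k n (fer (WittVector p k) n d) = ∑ i, monomial (ex (p * d) (Pi.single i 1)) 1 := by
    simp only [fl, fer, map_sum, map_pow, coe_eval₂Hom, eval₂_X]
    refine Finset.sum_congr rfl fun i _ => ?_
    have : ex (p * d) (Pi.single i 1) = Finsupp.single i (p * d) := by
      ext j
      rw [ex_apply, Finsupp.single_apply, Pi.single_apply]
      by_cases h : i = j
      · subst h; simp
      · rw [if_neg h, if_neg (Ne.symm h), mul_zero]
    rw [this, ← pow_mul, X_pow_eq_monomial]
  have hD : ∀ m, (p : WittVector p k) * coeff m (fer (WittVector p k) n d ^ (p - 1) * δ (fer (WittVector p k) n d)) =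
      coeff m (fer (WittVector p k) n d ^ (p - 1) * fl p k n (fer (WittVector p k) n d)) -
        coeff m (fer (WittVector p k) n d ^ (2 * p - 1)) := by
    intro m
    have h1 : fer (WittVector p k) n d ^ (2 * p - 1) = fer (WittVector p k) n d ^ (p - 1) *
        fer (WittVector p k) n d ^ p := by
      rw [← pow_add]; congr 1
      have := hp.out.two_le
      omega
    rw [h1, hδ, mul_add, coeff_add, add_sub_cancel_left]
    have h2 : fer (WittVector p k) n d ^ (p - 1) * ((p : MvPolynomial (Fin n) (WittVector p k)) *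
        δ (fer (WittVector p k) n d)) =
        C (p : WittVector p k) * (fer (WittVector p k) n d ^ (p - 1) * δ (fer (WittVector p k) n d)) := by
      rw [map_natCast]; ring
    rw [h2, coeff_C_mul]
  have hp0 : (p : WittVector p k) ≠ 0 := WittVector.p_nonzero p k
  -- off the exponent `dν`
  have hE1 : ∀ m β, γ + m = up p β → m ≠ ex d ν →
      coeff m (fer (WittVector p k) n d ^ (p - 1) * δ (fer (WittVector p k) n d)) = 0 := by
    intro m β hm hne
    apply mul_left_cancel₀ hp0
    rw [hD, mul_zero]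
    have hgen : ∀ κ : Fin n → ℕ, ∑ i, κ i = 2 * p - 1 → ex d κ ≠ m := by
      rintro κ hκ rfl
      apply hne
      congr 1
      have h : ∀ i, ν i ≤ κ i := by
        intro i
        have h1 := DFunLike.congr_fun hm i
        rw [Finsupp.add_apply, ex_apply, up_apply] at h1
        obtain ⟨t, ht, _⟩ := arith1 hp.out hpd (hγ i) (hν i) h1
        rw [ht]; exact Nat.le_add_right _ _
      funext i
      by_contra hlt
      have h3 : ν i < κ i := lt_of_le_of_ne (h i) (Ne.symm hlt)
      have : ∑ i, ν i < ∑ i, κ i := Finset.sum_lt_sum (fun i _ => h i) ⟨i, Finset.mem_univ i, h3⟩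
      omega
    rw [coeff_fer_pow_eq_zero m hgen, sub_zero, hflF, fer_pow, Finset.sum_mul_sum, coeff_sum]
    refine Finset.sum_eq_zero fun κ hκ => ?_
    rw [coeff_sum]
    refine Finset.sum_eq_zero fun i _ => ?_
    rw [monomial_mul, coeff_monomial, if_neg]
    intro h
    apply hgen (κ + p • Pi.single i 1)
    · rw [Finset.mem_piAntidiag] at hκ
      simp only [Pi.add_apply, Pi.smul_apply, smul_eq_mul, Finset.sum_add_distrib, hκ.1,
        ← Finset.mul_sum, Finset.sum_pi_single', Finset.mem_univ, if_true]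
      have := hp.out.two_le
      omega
    · rw [← h]
      ext j
      simp only [ex_apply, Finsupp.add_apply, Pi.add_apply, Pi.smul_apply, smul_eq_mul]
      ring
  have hE2 : coeff (ex d ν) (fer (WittVector p k) n d ^ (p - 1) * δ (fer (WittVector p k) n d)) = -(M : WittVector p k) := by
    apply mul_left_cancel₀ hp0
    rw [hD, coeff_fer_pow_ex hd ν hs, hM, hflF, fer_pow, Finset.sum_mul_sum, coeff_sum,
      Finset.sum_eq_zero, zero_sub]
    · push_cast; ring
    · intro κ _
      rw [coeff_sum]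
      refine Finset.sum_eq_zero fun i _ => ?_
      rw [monomial_mul, coeff_monomial, if_neg]
      intro h
      have h1 := DFunLike.congr_fun h i
      simp only [ex_apply, Finsupp.add_apply, Pi.single_eq_same, mul_one] at h1
      have h2 : d * ν i ≤ d * (p - 1) := Nat.mul_le_mul_left d (hν i)
      have h3 : d * (p - 1) < p * d := by
        rw [mul_comm p d]
        exact Nat.mul_lt_mul_of_pos_left (by have := hp.out.two_le; omega) hd
      omega
  -- the exponent
  have hexp : γ + ex d ν = up p (ex 1 (fun _ => p - 1 - d * a)) := by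
    ext i
    rw [Finsupp.add_apply, ex_apply, up_apply, ex_apply, one_mul]
    have h1 := hγ i
    have h2 : p * (p - 1 - d * a) + p * (d * a) + p = p ^ 2 := by
      obtain ⟨s, hs⟩ : ∃ s, p = d * a + 1 + s := ⟨p - (d * a + 1), by omega⟩
      have h3 : p - 1 - d * a = s := by omega
      rw [h3, sq]; nth_rewrite 5 [hs]; ring
    have h3 : d * (p * a + ν i) = p * (d * a) + d * ν i := by ring
    have := hp.out.two_le
    omega
  refine ⟨(frobeniusEquiv k p).symm (-(M : k)), ?_, ?_⟩
  · rw [Ne, EmbeddingLike.map_eq_zero_iff, neg_eq_zero, CharP.cast_eq_zero_iff k p]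
    exact hMp
  · have hrew : monomial γ (1 : k) * fer k n d ^ (p - 1) * pr p k n (δ (fer (WittVector p k) n d)) =
        monomial γ 1 * pr p k n (fer (WittVector p k) n d ^ (p - 1) * δ (fer (WittVector p k) n d)) := by
      rw [map_mul, map_pow, hfer, mul_assoc]
    rw [hrew]
    ext β
    by_cases hβ : ex 1 (fun _ => p - 1 - d * a) = β
    · subst hβ
      rw [coeff_monomial, if_pos rfl, coeff_u_monomial_mul' _ _ _ _ hexp, pr, coeff_map, hE2,
        map_neg, map_natCast]
    · rw [coeff_monomial, if_neg hβ]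
      apply coeff_u_monomial_mul
      intro m hm
      rw [pr, coeff_map, hE1 m β hm, map_zero]
      rintro rfl
      apply hβ
      exact up_injective (hexp.symm.trans hm)

/-- Claim 3: `u(f^{p-2} c x^{p-1-da})` is a nonzero constant. -/
lemma claim3 {a d : ℕ} (hd : 0 < d) (hda : d * a + 1 ≤ p)
    (hna : n * a = p - 2) (c : k) (hc : c ≠ 0) :
    ∃ c' : k, c' ≠ 0 ∧
      u (p := p) (fer k n d ^ (p - 2) * monomial (ex 1 (fun _ => p - 1 - d * a)) c) = C c' := by
  have h2 := hp.out.two_le
  refine ⟨(frobeniusEquiv k p).symm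
    (c * (Nat.multinomial (Finset.univ : Finset (Fin n)) (fun _ => a) : k)), ?_, ?_⟩
  · rw [Ne, EmbeddingLike.map_eq_zero_iff, mul_eq_zero, not_or]
    refine ⟨hc, ?_⟩
    rw [CharP.cast_eq_zero_iff k p]
    exact multinomial_unit hp.out hna
  · have hsum : ∑ _i : Fin n, a = p - 2 := by simp [hna]
    have hexp : ex 1 (fun _ : Fin n => p - 1 - d * a) + ex d (fun _ => a) = up p 0 := by
      ext i
      rw [Finsupp.add_apply, ex_apply, ex_apply, up_apply, Finsupp.zero_apply]
      omega
    ext β
    rw [mul_comm, coeff_u, coeff_C, coeff_monomial_mul']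
    by_cases hβ : (0 : Fin n →₀ ℕ) = β
    · subst hβ
      rw [if_pos rfl, if_pos, ← hexp, add_tsub_cancel_left, coeff_fer_pow_ex hd _ hsum]
      rw [← hexp]; exact le_self_add
    · rw [if_neg hβ]
      split_ifs with hle
      · rw [coeff_fer_pow_eq_zero, mul_zero, map_zero]
        intro κ hκ h
        apply hβ
        have h1 : ∀ i, p - 1 - d * a + d * κ i = p * β i + (p - 1) := by
          intro i
          have h3 : ex 1 (fun _ => p - 1 - d * a) + ex d κ = up p β := by
            rw [h]; exact add_tsub_cancel_of_le hle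
          have h4 := DFunLike.congr_fun h3 i
          rw [Finsupp.add_apply, ex_apply, ex_apply, up_apply, one_mul] at h4
          exact h4
        have h5 : ∀ i, a ≤ κ i := by
          intro i
          have h6 := h1 i
          have h7 : d * a ≤ d * κ i := by omega
          exact Nat.le_of_mul_le_mul_left h7 hd
        have h6 : ∀ i, κ i = a := by
          intro i
          by_contra hne
          have h3 : a < κ i := lt_of_le_of_ne (h5 i) (Ne.symm hne)
          have : ∑ _i : Fin n, a < ∑ i, κ i :=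
            Finset.sum_lt_sum (fun i _ => h5 i) ⟨i, Finset.mem_univ i, h3⟩
          omega
        ext i
        have h7 := h1 i
        rw [h6 i] at h7
        rw [Finsupp.zero_apply]
        have h8 : p * β i = 0 := by omega
        rcases Nat.mul_eq_zero.1 h8 with h9 | h9
        · omega
        · exact h9.symm
      · rw [map_zero]

end comp

end Q43.QF
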