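import Mathlib

/-! Constructing semilinear maps `σ : W_2(A/f) → A/f` from a Frobenius lift. -/

namespace Q43.QF

open WittVector


section frob

variable (p : ℕ) [hp : Fact p.Prime] (ℓ : ℕ) (S : Type*) [CommRing S] [CharP S p]

/-- The Frobenius on truncated Witt vectors of a ring of characteristic `p`: it raises every
component to the `p`-th power. -/
noncomputable def wFrob : TruncatedWittVector p ℓ S →+* TruncatedWittVector p ℓ S where
  toFun x := TruncatedWittVector.mk p fun i => x.coeff i ^ p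
  map_one' := by
    have h : (1 : TruncatedWittVector p ℓ S) = WittVector.truncate ℓ (1 : WittVector p S) := (map_one _).symm
    rw [h]
    have h2 : (1 : WittVector p S) = WittVector.frobenius (1 : WittVector p S) := (map_one _).symm
    conv_rhs => rw [h2]
    ext i
    simp only [TruncatedWittVector.coeff_mk, WittVector.coeff_truncate,
      WittVector.coeff_frobenius_charP]
  map_zero' := by
    ext i
    simp [TruncatedWittVector.coeff_mk, hp.out.ne_zero]
  map_mul' x y := by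
    obtain ⟨X, rfl⟩ := WittVector.truncate_surjective p ℓ S x
    obtain ⟨Y, rfl⟩ := WittVector.truncate_surjective p ℓ S y
    have h (Z : WittVector p S) : TruncatedWittVector.mk p (fun i => (WittVector.truncate ℓ Z).coeff i ^ p)
        = WittVector.truncate ℓ (WittVector.frobenius Z) := by
      ext i
      simp only [TruncatedWittVector.coeff_mk, WittVector.coeff_truncate,
        WittVector.coeff_frobenius_charP]
    rw [← map_mul, h, h, h, map_mul, map_mul]
  map_add' x y := by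
    obtain ⟨X, rfl⟩ := WittVector.truncate_surjective p ℓ S x
    obtain ⟨Y, rfl⟩ := WittVector.truncate_surjective p ℓ S y
    have h (Z : WittVector p S) : TruncatedWittVector.mk p (fun i => (WittVector.truncate ℓ Z).coeff i ^ p)
        = WittVector.truncate ℓ (WittVector.frobenius Z) := by
      ext i
      simp only [TruncatedWittVector.coeff_mk, WittVector.coeff_truncate,
        WittVector.coeff_frobenius_charP]
    rw [← map_add, h, h, h, map_add, map_add]

variable {p ℓ S}

lemma coeff_wFrob (x : TruncatedWittVector p ℓ S) (i : Fin ℓ) :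
    (wFrob p ℓ S x).coeff i = x.coeff i ^ p := by
  simp [wFrob]

lemma wFrob_truncate (Z : WittVector p S) :
    wFrob p ℓ S (WittVector.truncate ℓ Z) = WittVector.truncate ℓ (WittVector.frobenius Z) := by
  ext i
  simp only [coeff_wFrob, WittVector.coeff_truncate, WittVector.coeff_frobenius_charP]

end frob

section core

variable {p : ℕ} [hp : Fact p.Prime] {B A : Type*} [CommRing B] [CommRing A]

/-- `G(X) = X_1 - δ(X_0)`. -/
def GG (δ : B → B) (X : WittVector p B) : B := X.coeff 1 - δ (X.coeff 0)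

lemma gh0 (X : WittVector p B) : ghostComponent 0 X = X.coeff 0 := by
  simp [ghostComponent_apply]

lemma gh1 (X : WittVector p B) : ghostComponent 1 X = X.coeff 0 ^ p + p * X.coeff 1 := by
  rw [ghostComponent_apply, wittPolynomial_eq_sum_C_mul_X_pow]
  simp [Finset.sum_range_succ]

lemma gh2 (X : WittVector p B) : ghostComponent 2 X =
    X.coeff 0 ^ (p ^ 2) + p * X.coeff 1 ^ p + p ^ 2 * X.coeff 2 := by
  rw [ghostComponent_apply, wittPolynomial_eq_sum_C_mul_X_pow]
  simp [Finset.sum_range_succ]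

variable {φ : B →+* B} {δ : B → B}

lemma p_mul_GG (hδ : ∀ b, φ b = b ^ p + p * δ b) (X : WittVector p B) :
    p * GG δ X = ghostComponent 1 X - φ (ghostComponent 0 X) := by
  rw [gh1, gh0, hδ, GG]
  ring

lemma GG_add (hB : ∀ x y : B, (p : B) * x = p * y → x = y) (hδ : ∀ b, φ b = b ^ p + p * δ b)
    (X Y : WittVector p B) : GG δ (X + Y) = GG δ X + GG δ Y := by
  apply hB
  rw [mul_add, p_mul_GG hδ, p_mul_GG hδ, p_mul_GG hδ, map_add, map_add, map_add]
  ring

lemma pow_sub_dvd (a b : B) : ∃ c, (a + p * b) ^ p = a ^ p + p ^ 2 * c := by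
  have h : ((p : ℤ) : B) ∣ (a + p * b) - a := ⟨b, by push_cast; ring⟩
  have h' : (p : B) ∣ (a + p * b) - a := ⟨b, by ring⟩
  have := dvd_sub_pow_of_dvd_sub h' 1
  obtain ⟨c, hc⟩ := this
  refine ⟨c, ?_⟩
  rw [pow_one] at hc
  rw [one_add_one_eq_two] at hc
  rw [← hc]; ring

lemma GG_frob_mul (hB : ∀ x y : B, (p : B) * x = p * y → x = y)
    (hδ : ∀ b, φ b = b ^ p + p * δ b) (W X : WittVector p B) :
    ∃ c, GG δ (WittVector.frobenius W * X) = (W.coeff 0 ^ (p ^ 2)) * GG δ X + p * c := by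
  obtain ⟨c₁, hc₁⟩ := pow_sub_dvd (p := p) (W.coeff 0 ^ p) (δ (W.coeff 0))
  refine ⟨(W.coeff 1 ^ p + p * W.coeff 2) * GG δ X +
    (W.coeff 2 - c₁ - δ (W.coeff 1)) * φ (ghostComponent 0 X), ?_⟩
  apply hB
  rw [p_mul_GG hδ, map_mul, map_mul, ghostComponent_frobenius, ghostComponent_frobenius, map_mul]
  have h1 : ghostComponent 1 X = p * GG δ X + φ (ghostComponent 0 X) := by
    rw [p_mul_GG hδ]; ring
  have h2 : φ (ghostComponent (0 + 1) W) =
      W.coeff 0 ^ (p ^ 2) + p ^ 2 * c₁ + p * (W.coeff 1 ^ p + p * δ (W.coeff 1)) := by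
    have e : (W.coeff 0 ^ p) ^ p = W.coeff 0 ^ (p ^ 2) := by rw [← pow_mul, ← sq]
    rw [zero_add, gh1, map_add, map_pow, map_mul, map_natCast, hδ (W.coeff 0), hδ (W.coeff 1), hc₁,
      e]
  rw [h2, one_add_one_eq_two, gh2, h1]
  ring

lemma GG_ker (hB : ∀ x y : B, (p : B) * x = p * y → x = y)
    (hδ : ∀ b, φ b = b ^ p + p * δ b) (F b e : B) :
    ∃ c, δ (F * b + p * e) = δ F * b ^ p + F ^ p * δ b + e ^ p + p * c := by
  obtain ⟨c₃, hc₃⟩ := pow_sub_dvd (p := p) (F * b) e
  refine ⟨δ F * δ b + δ e - c₃, ?_⟩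
  apply hB
  have h1 : p * δ (F * b + p * e) = φ (F * b + p * e) - (F * b + p * e) ^ p := by
    rw [hδ]; ring
  rw [h1, hc₃, map_add, map_mul, map_mul, map_natCast, hδ F, hδ b, hδ e]
  ring

end core

section descend

variable {p : ℕ} [hp : Fact p.Prime] {B A : Type*} [CommRing B] [CommRing A]

variable (δ : B → B) (π : B →+* A) (u : A →+ A) (F : B) (g : A)

/-- The map `σ̃ : W(B) → A`. -/
def sig (X : WittVector p B) : A :=
  u (π F ^ (p - 2) * u (g * π F ^ (p - 1) * π (δ F)) * π (X.coeff 0)) +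
    u (u (g * π F ^ (p ^ 2 - 1) * π (GG δ X)))

variable {δ π u F g} {φ : B →+* B}

lemma sig_add (hB : ∀ x y : B, (p : B) * x = p * y → x = y) (hδ : ∀ b, φ b = b ^ p + p * δ b)
    (X Y : WittVector p B) : sig δ π u F g (X + Y) = sig δ π u F g X + sig δ π u F g Y := by
  have h0 : (X + Y).coeff 0 = X.coeff 0 + Y.coeff 0 := by
    rw [← gh0, ← gh0, ← gh0, map_add]
  rw [sig, sig, sig, h0, GG_add hB hδ, map_add, map_add, mul_add, mul_add, map_add, map_add,
    map_add]
  ring

lemma sig_frob_mul (hB : ∀ x y : B, (p : B) * x = p * y → x = y)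
    (hδ : ∀ b, φ b = b ^ p + p * δ b) (hp0 : (p : A) = 0)
    (hu : ∀ a b, u (a ^ p * b) = a * u b) (W X : WittVector p B) :
    sig δ π u F g (WittVector.frobenius W * X) = π (W.coeff 0) * sig δ π u F g X := by
  obtain ⟨c, hc⟩ := GG_frob_mul hB hδ W X
  have h0 : π ((WittVector.frobenius W * X).coeff 0) = π (W.coeff 0) ^ p * π (X.coeff 0) := by
    have : (WittVector.frobenius W * X).coeff 0 = (W.coeff 0 ^ p + p * W.coeff 1) * X.coeff 0 := by
      rw [← gh0, map_mul, ghostComponent_frobenius, zero_add, gh1, gh0]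
    rw [this, map_mul, map_add, map_pow, map_mul, map_natCast, hp0]
    ring
  have h1 : π (GG δ (WittVector.frobenius W * X)) = (π (W.coeff 0) ^ p) ^ p * π (GG δ X) := by
    rw [hc, map_add, map_mul, map_mul, map_natCast, hp0, map_pow, ← pow_mul, ← sq]
    ring
  rw [sig, sig, h0, h1, mul_add]
  congr 1
  · rw [← hu (π (W.coeff 0))
      (π F ^ (p - 2) * u (g * π F ^ (p - 1) * π (δ F)) * π (X.coeff 0))]
    congr 1; ring
  · rw [← hu (π (W.coeff 0)) (u (g * π F ^ (p ^ 2 - 1) * π (GG δ X))),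
      ← hu (π (W.coeff 0) ^ p) (g * π F ^ (p ^ 2 - 1) * π (GG δ X))]
    congr 2; ring

lemma sig_ker (hB : ∀ x y : B, (p : B) * x = p * y → x = y)
    (hδ : ∀ b, φ b = b ^ p + p * δ b) (hp0 : (p : A) = 0)
    (hu : ∀ a b, u (a ^ p * b) = a * u b) (hg : u (g * π F ^ (p - 1)) = 0)
    (Z : WittVector p B) (b e c e' : B) (h0 : Z.coeff 0 = F * b + p * e) (h1 : Z.coeff 1 = F * c + p * e') :
    ∃ t, sig δ π u F g Z = π F * t := by
  obtain ⟨c', hc'⟩ := GG_ker hB hδ F b e
  obtain ⟨r, hr⟩ : ∃ r, p = r + 2 := ⟨p - 2, by have := hp.out.two_le; omega⟩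
  have hG : π (GG δ Z) = π F * π c - π (δ F) * π b ^ p - π F ^ p * π (δ b) - π e ^ p := by
    rw [GG, h0, h1, hc']
    simp only [map_sub, map_add, map_mul, map_pow, map_natCast, hp0]
    ring
  have hz : π (Z.coeff 0) = π F * π b := by
    rw [h0]; simp [hp0]
  refine ⟨u (u (g * π c)) - u (u (g * π F ^ (p - 1) * π (δ b))), ?_⟩
  rw [sig, hG, hz]
  have e1 : g * π F ^ (p ^ 2 - 1) * (π F * π c - π (δ F) * π b ^ p - π F ^ p * π (δ b) - π e ^ p)
      = (π F ^ p) ^ p * (g * π c) - (π b * π F ^ (p - 1)) ^ p * (g * π F ^ (p - 1) * π (δ F))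
        - (π F ^ p) ^ p * (g * π F ^ (p - 1) * π (δ b))
        - (π e * π F ^ (p - 1)) ^ p * (g * π F ^ (p - 1)) := by
    have a1 : (π F ^ p) ^ p = π F ^ (p ^ 2 - 1) * π F := by
      rw [← pow_mul, ← pow_succ]
      congr 1
      have : 0 < p ^ 2 := by have := hp.out.pos; positivity
      rw [Nat.sub_add_cancel this, sq]
    have a2 : (π F ^ (p - 1)) ^ p * π F ^ (p - 1) = π F ^ (p ^ 2 - 1) := by
      rw [← pow_mul, ← pow_add]
      congr 1
      rw [hr]
      have : r + 2 - 1 = r + 1 := by omega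
      rw [this]
      have : (r + 2) ^ 2 - 1 = (r + 1) * (r + 3) := by
        have : (r + 2) ^ 2 = (r + 1) * (r + 3) + 1 := by ring
        omega
      rw [this]; ring
    have a3 : (π F ^ p) ^ p * π F ^ (p - 1) = π F ^ (p ^ 2 - 1) * π F ^ p := by
      rw [a1, mul_assoc, ← pow_succ']
      congr 2
      have := hp.out.pos
      omega
    rw [mul_pow, mul_pow]
    linear_combination (-(g * π c)) * a1 + (π b ^ p * g * π (δ F)) * a2 +
      (g * π (δ b)) * a3 + (π e ^ p * g) * a2
  have e3 : u (g * π F ^ (p ^ 2 - 1) *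
      (π F * π c - π (δ F) * π b ^ p - π F ^ p * π (δ b) - π e ^ p)) =
      π F ^ p * u (g * π c) - π b * π F ^ (p - 1) * u (g * π F ^ (p - 1) * π (δ F)) -
        π F ^ p * u (g * π F ^ (p - 1) * π (δ b)) := by
    rw [e1, map_sub, map_sub, map_sub, hu, hu, hu, hu, hg, mul_zero, sub_zero]
  rw [e3, map_sub, map_sub, hu, hu]
  have e2 : π F ^ (p - 2) * u (g * π F ^ (p - 1) * π (δ F)) * (π F * π b)
      = π b * π F ^ (p - 1) * u (g * π F ^ (p - 1) * π (δ F)) := by
    have : π F ^ (p - 1) = π F ^ (p - 2) * π F := by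
      rw [← pow_succ]; congr 1; omega
    rw [this]; ring
  rw [e2]
  ring

end descend

end Q43.QF
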