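import Pool.Agent.Q43.QF.U
import Pool.Agent.Q43.QF.Witt

/-! The Frobenius lift on `W(k)[x_1, ..., x_n]` and the computations with Fermat polynomials. -/

namespace Q43.QF

open MvPolynomial


section lift

variable (p : ℕ) [hp : Fact p.Prime] (k : Type*) [Field k] [CharP k p] [PerfectRing k p] (n : ℕ)

/-- reduction `W(k)[x] → k[x]` -/
noncomputable def pr : MvPolynomial (Fin n) (WittVector p k) →+* MvPolynomial (Fin n) k :=
  MvPolynomial.map WittVector.constantCoeff

/-- Frobenius lift on `W(k)[x]` -/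
noncomputable def fl : MvPolynomial (Fin n) (WittVector p k) →+* MvPolynomial (Fin n) (WittVector p k) :=
  MvPolynomial.eval₂Hom (C.comp WittVector.frobenius) (fun i => X i ^ p)

variable {p k n}

lemma pr_surjective : Function.Surjective (pr p k n) :=
  MvPolynomial.map_surjective _ (WittVector.constantCoeff_surjective p)

lemma pr_fl (b : MvPolynomial (Fin n) (WittVector p k)) : pr p k n (fl p k n b) = pr p k n b ^ p := by
  have h : (pr p k n).comp (fl p k n) = (frobenius (MvPolynomial (Fin n) k) p).comp (pr p k n) := by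
    apply MvPolynomial.ringHom_ext
    · intro r
      rw [RingHom.comp_apply, RingHom.comp_apply, frobenius_def]
      rw [fl, eval₂Hom_C, RingHom.comp_apply, pr, map_C, map_C, ← C_pow,
        WittVector.constantCoeff_apply, WittVector.constantCoeff_apply,
        WittVector.coeff_frobenius_charP]
    · intro i
      simp [pr, fl, frobenius_def]
  exact congrArg (fun f => f b) h

lemma pr_ker {b : MvPolynomial (Fin n) (WittVector p k)} (h : pr p k n b = 0) :
    ∃ e, b = (p : MvPolynomial (Fin n) (WittVector p k)) * e := by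
  have h1 : b ∈ RingHom.ker (pr p k n) := h
  rw [pr, MvPolynomial.ker_map, WittVector.ker_constantCoeff, Ideal.map_span,
    Set.image_singleton, Ideal.mem_span_singleton] at h1
  obtain ⟨e, he⟩ := h1
  refine ⟨e, ?_⟩
  rw [he, map_natCast]

lemma pr_p : (p : MvPolynomial (Fin n) k) = 0 := CharP.cast_eq_zero _ _

lemma tf (x y : MvPolynomial (Fin n) (WittVector p k))
    (h : (p : MvPolynomial (Fin n) (WittVector p k)) * x = p * y) : x = y := by
  have hp0 : (p : MvPolynomial (Fin n) (WittVector p k)) ≠ 0 := by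
    rw [← map_natCast (C : WittVector p k →+* MvPolynomial (Fin n) (WittVector p k))]
    rw [Ne, C_eq_zero]
    exact WittVector.p_nonzero p k
  exact mul_left_cancel₀ hp0 h

lemma exists_delta : ∃ δ : MvPolynomial (Fin n) (WittVector p k) → MvPolynomial (Fin n) (WittVector p k),
    ∀ b, fl p k n b = b ^ p + p * δ b := by
  have h : ∀ b, ∃ e, fl p k n b - b ^ p = (p : MvPolynomial (Fin n) (WittVector p k)) * e := by
    intro b
    apply pr_ker
    rw [map_sub, pr_fl, map_pow, sub_self]
  choose δ hδ using h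
  exact ⟨δ, fun b => by rw [← hδ b]; ring⟩

end lift

section fermat

variable {n : ℕ} (K : Type*) [CommRing K]

/-- Fermat polynomial -/
noncomputable def fer (n d : ℕ) : MvPolynomial (Fin n) K := ∑ i, X i ^ d

/-- exponent vector -/
noncomputable def ex (d : ℕ) (κ : Fin n → ℕ) : Fin n →₀ ℕ :=
  Finsupp.equivFunOnFinite.symm (fun i => d * κ i)

variable {K}

lemma ex_apply (d : ℕ) (κ : Fin n → ℕ) (i : Fin n) : ex d κ i = d * κ i := by simp [ex]

lemma fer_pow (d N : ℕ) : fer K n d ^ N =
    ∑ κ ∈ Finset.piAntidiag Finset.univ N,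
      monomial (ex d κ) (Nat.multinomial Finset.univ κ : K) := by
  rw [fer, Finset.sum_pow_eq_sum_piAntidiag]
  refine Finset.sum_congr rfl fun κ _ => ?_
  have h : (monomial (ex d κ) (Nat.multinomial Finset.univ κ : K)) =
      C (Nat.multinomial Finset.univ κ : K) * ∏ i, X i ^ (d * κ i) := by
    rw [monomial_eq, Finsupp.prod_fintype _ _ (fun i => pow_zero _)]
    simp only [ex_apply]
  rw [h, map_natCast]
  congr 1
  refine Finset.prod_congr rfl fun i _ => ?_
  rw [← pow_mul]

lemma coeff_fer_pow (d N : ℕ) (m : Fin n →₀ ℕ) : coeff m (fer K n d ^ N) =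
    ∑ κ ∈ Finset.piAntidiag Finset.univ N,
      if ex d κ = m then (Nat.multinomial Finset.univ κ : K) else 0 := by
  rw [fer_pow, coeff_sum]
  refine Finset.sum_congr rfl fun κ _ => ?_
  rw [coeff_monomial]

lemma ex_injective {d : ℕ} (hd : 0 < d) : Function.Injective (ex d : (Fin n → ℕ) → _) := by
  intro a b h
  funext i
  have h1 := DFunLike.congr_fun h i
  rw [ex_apply, ex_apply] at h1
  exact Nat.eq_of_mul_eq_mul_left hd h1

lemma coeff_fer_pow_ex {d N : ℕ} (hd : 0 < d) (ν : Fin n → ℕ) (hν : ∑ i, ν i = N) :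
    coeff (ex d ν) (fer K n d ^ N) = (Nat.multinomial Finset.univ ν : K) := by
  rw [coeff_fer_pow, Finset.sum_eq_single ν]
  · rw [if_pos rfl]
  · intro κ _ hne
    rw [if_neg (fun h => hne (ex_injective hd h))]
  · intro h
    exfalso; apply h
    rw [Finset.mem_piAntidiag]
    exact ⟨hν, fun i _ => Finset.mem_univ i⟩

lemma coeff_fer_pow_eq_zero {d N : ℕ} (m : Fin n →₀ ℕ)
    (h : ∀ κ : Fin n → ℕ, ∑ i, κ i = N → ex d κ ≠ m) :
    coeff m (fer K n d ^ N) = 0 := by
  rw [coeff_fer_pow]
  refine Finset.sum_eq_zero fun κ hκ => ?_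
  rw [Finset.mem_piAntidiag] at hκ
  rw [if_neg (h κ hκ.1)]

end fermat

end Q43.QF
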