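import Pool.Agent.Q43.QF.Comp

/-! The semilinear map `σ : W_2(R) → R` for the Fermat ring `R`. -/

namespace Q43.QF

open MvPolynomial


universe v

section desc

lemma map_frob {p : ℕ} [hp : Fact p.Prime] {B R : Type v} [CommRing B] [CommRing R] (f : B →+* R)
    (W : WittVector p B) : WittVector.map f (WittVector.frobenius W) =
      WittVector.frobenius (WittVector.map f W) :=
  (WittVector.frobenius_isPoly p).map f W

variable {p : ℕ} [hp : Fact p.Prime] {B A : Type v} [CommRing B] [CommRing A]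

/-- Descent of `σ̃` to `W_2(A/f)`. -/
theorem exists_sigma {φ : B →+* B} {δ : B → B} {π : B →+* A} {u : A →+ A} {F : B} {g : A}
    (hB : ∀ x y : B, (p : B) * x = p * y → x = y)
    (hδ : ∀ b, φ b = b ^ p + p * δ b) (hp0 : (p : A) = 0)
    (hu : ∀ a b, u (a ^ p * b) = a * u b) (hπ : Function.Surjective π)
    (hker : ∀ b, π b = 0 → ∃ e, b = p * e) (hg : u (g * π F ^ (p - 1)) = 0)
    [CharP (A ⧸ Ideal.span {π F}) p] :
    ∃ σ : TruncatedWittVector p 2 (A ⧸ Ideal.span {π F}) →+ A ⧸ Ideal.span {π F},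
      (∀ w x, σ (wFrob p 2 _ w * x) = w.coeff 0 * σ x) ∧
      σ 1 = Ideal.Quotient.mk _ (u (π F ^ (p - 2) * u (g * π F ^ (p - 1) * π (δ F)))) := by
  set R := A ⧸ Ideal.span {π F} with hR
  let q : A →+* R := Ideal.Quotient.mk _
  let T : WittVector p B →+* TruncatedWittVector p 2 R :=
    (WittVector.truncate 2).comp (WittVector.map (q.comp π))
  have hT : Function.Surjective T := by
    intro y
    obtain ⟨Y, rfl⟩ := WittVector.truncate_surjective p 2 R y
    obtain ⟨X, rfl⟩ := WittVector.map_surjective (q.comp π)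
      (Ideal.Quotient.mk_surjective.comp hπ) Y
    exact ⟨X, rfl⟩
  have hTc : ∀ (X : WittVector p B) (i : Fin 2), (T X).coeff i = q (π (X.coeff i)) := by
    intro X i
    simp only [T, RingHom.comp_apply, WittVector.coeff_truncate, WittVector.map_coeff]
  let S : WittVector p B →+ R :=
    { toFun := fun X => q (sig δ π u F g X)
      map_zero' := by
        have h := sig_add (δ := δ) (π := π) (u := u) (F := F) (g := g) hB hδ 0 0
        rw [add_zero] at h
        have : sig δ π u F g (0 : WittVector p B) = 0 := by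
          simpa using h
        rw [this, map_zero]
      map_add' := fun X Y => by rw [sig_add hB hδ, map_add] }
  have hS : ∀ X, S X = q (sig δ π u F g X) := fun X => rfl
  have hmem : ∀ z : B, q (π z) = 0 → ∃ b e, z = F * b + p * e := by
    intro z hz
    rw [Ideal.Quotient.eq_zero_iff_mem, Ideal.mem_span_singleton] at hz
    obtain ⟨c, hc⟩ := hz
    obtain ⟨b, rfl⟩ := hπ c
    obtain ⟨e, he⟩ := hker (z - F * b) (by rw [map_sub, map_mul, hc, sub_self])
    exact ⟨b, e, by rw [← he]; ring⟩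
  have hker' : ∀ X, T X = 0 → S X = 0 := by
    intro X hX
    have h0 : q (π (X.coeff 0)) = 0 := by
      have := hTc X 0
      rw [hX, TruncatedWittVector.coeff_zero] at this
      exact this.symm
    have h1 : q (π (X.coeff 1)) = 0 := by
      have := hTc X 1
      rw [hX, TruncatedWittVector.coeff_zero] at this
      exact this.symm
    obtain ⟨b, e, hb⟩ := hmem _ h0
    obtain ⟨c, e', hc⟩ := hmem _ h1
    obtain ⟨t, ht⟩ := sig_ker hB hδ hp0 hu hg X b e c e' hb hc
    rw [hS, ht, Ideal.Quotient.eq_zero_iff_mem]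
    exact Ideal.mul_mem_right _ _ (Ideal.mem_span_singleton_self _)
  have hwell : ∀ X Y, T X = T Y → S X = S Y := by
    intro X Y h
    have h1 : T (X - Y) = 0 := by rw [map_sub, h, sub_self]
    have h2 := hker' _ h1
    rw [map_sub, sub_eq_zero] at h2
    exact h2
  choose s hs using hT
  have hSs : ∀ X, S (s (T X)) = S X := fun X => hwell _ _ (hs (T X))
  let σ : TruncatedWittVector p 2 R →+ R :=
    { toFun := fun x => S (s x)
      map_zero' := by
        have := hSs 0
        rw [map_zero, map_zero] at this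
        exact this
      map_add' := fun x y => by
        rw [← map_add]
        apply hwell
        rw [hs, map_add, hs, hs] }
  have hσ : ∀ X, σ (T X) = S X := hSs
  refine ⟨σ, ?_, ?_⟩
  · intro w x
    obtain ⟨W, hW⟩ : ∃ W, T W = w := ⟨s w, hs w⟩
    obtain ⟨X, hX⟩ : ∃ X, T X = x := ⟨s x, hs x⟩
    have hF : wFrob p 2 R w = T (WittVector.frobenius W) := by
      rw [← hW]
      simp only [T, RingHom.comp_apply]
      rw [wFrob_truncate]
      congr 1
      rw [map_frob]
    rw [hF, ← hX, ← map_mul, hσ, hσ, hS, hS, sig_frob_mul hB hδ hp0 hu, map_mul, ← hW, hTc]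
    rfl
  · have h1 : σ 1 = S 1 := by
      have := hσ 1
      rwa [map_one T] at this
    rw [h1, hS]
    congr 1
    have h2 : GG δ (1 : WittVector p B) = 0 := by
      apply hB
      rw [p_mul_GG hδ, map_one, map_one, map_one, sub_self, mul_zero]
    rw [sig, h2, map_zero, mul_zero, map_zero, map_zero, add_zero, WittVector.one_coeff_zero,
      map_one, mul_one]

theorem exists_sigma' {φ : B →+* B} {δ : B → B} {π : B →+* A} {u : A →+ A} {F : B} {g : A}
    (hB : ∀ x y : B, (p : B) * x = p * y → x = y)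
    (hδ : ∀ b, φ b = b ^ p + p * δ b) (hp0 : (p : A) = 0)
    (hu : ∀ a b, u (a ^ p * b) = a * u b) (hπ : Function.Surjective π)
    (hker : ∀ b, π b = 0 → ∃ e, b = p * e) (f : A) (hf : π F = f) (hg : u (g * f ^ (p - 1)) = 0)
    [CharP (A ⧸ Ideal.span {f}) p] :
    ∃ σ : TruncatedWittVector p 2 (A ⧸ Ideal.span {f}) →+ A ⧸ Ideal.span {f},
      (∀ w x, σ (wFrob p 2 _ w * x) = w.coeff 0 * σ x) ∧
      σ 1 = Ideal.Quotient.mk _ (u (f ^ (p - 2) * u (g * f ^ (p - 1) * π (δ F)))) := by
  subst hf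
  exact exists_sigma hB hδ hp0 hu hπ hker hg

end desc

section final

variable {p : ℕ} [hp : Fact p.Prime] {k : Type v} [Field k] [CharP k p] [PerfectRing k p]

omit hp [PerfectRing k p] in
lemma charP_fermat (p : ℕ) (k : Type v) [Field k] [CharP k p] (n d : ℕ) (hd : 0 < d) :
    CharP (MvPolynomial (Fin n) k ⧸ Ideal.span {fer k n d}) p := by
  have hnt : Nontrivial (MvPolynomial (Fin n) k ⧸ Ideal.span {fer k n d}) := by
    rw [Ideal.Quotient.nontrivial_iff, Ne, Ideal.eq_top_iff_one, Ideal.mem_span_singleton]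
    rintro ⟨g, hg⟩
    have h := congrArg (MvPolynomial.eval (fun _ => (0 : k))) hg
    rw [map_one, map_mul, fer, map_sum] at h
    rw [Finset.sum_eq_zero, zero_mul] at h
    · exact one_ne_zero h
    · intro i _
      rw [map_pow, eval_X, zero_pow hd.ne']
  exact charP_of_injective_algebraMap
    (algebraMap k (MvPolynomial (Fin n) k ⧸ Ideal.span {fer k n d})).injective p

theorem fermat_sigma (n d : ℕ) (hp2 : 2 < p) (hn : 3 ≤ n) (hmod : p ≡ 2 [MOD n]) (hd : 1 < d)
    (hdn : d < n) [CharP (MvPolynomial (Fin n) k ⧸ Ideal.span {fer k n d}) p] :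
    ∃ σ : TruncatedWittVector p 2 (MvPolynomial (Fin n) k ⧸ Ideal.span {fer k n d}) →+
        MvPolynomial (Fin n) k ⧸ Ideal.span {fer k n d},
      (∀ w x, σ (wFrob p 2 _ w * x) = w.coeff 0 * σ x) ∧ σ 1 = 1 := by
  obtain ⟨a, hna⟩ : n ∣ p - 2 := (Nat.modEq_iff_dvd' hp2.le).1 hmod.symm
  have hna' : n * a = p - 2 := hna.symm
  obtain ⟨ν, hν, hs, hνd⟩ := exists_nu hp.out hp2 hn hd hna' hdn
  let γ : Fin n →₀ ℕ :=
    Finsupp.equivFunOnFinite.symm (fun i => p ^ 2 - 1 - d * (p * a + ν i))
  have hγ : ∀ i, γ i + d * (p * a + ν i) + 1 = p ^ 2 := by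
    intro i
    have h1 := hνd i
    have h2 : γ i = p ^ 2 - 1 - d * (p * a + ν i) := rfl
    rw [h2]
    omega
  have ha : 1 ≤ a := by
    rcases Nat.eq_zero_or_pos a with h | h
    · subst h; omega
    · exact h
  have hnp : n + 2 ≤ p := by
    have : n * 1 ≤ n * a := Nat.mul_le_mul_left n ha
    omega
  have hpd : Nat.Coprime p d := by
    rw [hp.out.coprime_iff_not_dvd]
    intro h
    have := Nat.le_of_dvd (by omega) h
    omega
  have hda : d * a + 1 ≤ p := by
    have h1 : d * a ≤ n * a := Nat.mul_le_mul_right _ hdn.le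
    omega
  obtain ⟨δ, hδ⟩ := exists_delta (p := p) (k := k) (n := n)
  obtain ⟨c, hc, h2⟩ := claim2 (by omega) hpd hda γ ν hγ hν hs δ hδ
  obtain ⟨c', hc', h3⟩ := claim3 (by omega) hda hna' c hc
  have hfer : pr p k n (fer (WittVector p k) n d) = fer k n d := by
    simp [pr, fer]
  have h1 := claim1 (k := k) hpd γ ν hγ hν hs
  obtain ⟨σ, hσ, hσ1⟩ := exists_sigma' (φ := fl p k n) (δ := δ) (π := pr p k n)
    (u := uHom (p := p)) (F := fer (WittVector p k) n d) (g := monomial γ 1) tf hδ pr_p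
    (fun a b => u_pow_mul a b) pr_surjective (fun b hb => pr_ker hb) (fer k n d) hfer h1
  have hσ1' : σ 1 = Ideal.Quotient.mk _ (C c') := by
    rw [hσ1, uHom_apply, uHom_apply, h2, h3]
  refine ⟨(AddMonoidHom.mulLeft (Ideal.Quotient.mk _ (C c'⁻¹))).comp σ, ?_, ?_⟩
  · intro w x
    simp only [AddMonoidHom.comp_apply, AddMonoidHom.coe_mulLeft]
    rw [hσ]
    ring
  · simp only [AddMonoidHom.comp_apply, AddMonoidHom.coe_mulLeft]
    rw [hσ1', ← map_mul, ← C_mul, inv_mul_cancel₀ hc', C_1, map_one]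

end final

end Q43.QF
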