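import Mathlib

/-! The standard `p^{-1}`-linear operator `u` on `k[x_1, ..., x_n]`, `k` perfect of
characteristic `p`. -/

namespace Q43.QF

open MvPolynomial

variable {p : ℕ} [hp : Fact p.Prime] {k : Type*} [Field k] [CharP k p] [PerfectRing k p]
variable {n : ℕ}

/-- exponent map `β ↦ pβ + (p-1)`. -/
noncomputable def up (p : ℕ) (β : Fin n →₀ ℕ) : Fin n →₀ ℕ :=
  p • β + Finsupp.equivFunOnFinite.symm (fun _ => p - 1)

omit hp in
lemma up_apply (β : Fin n →₀ ℕ) (i : Fin n) : up p β i = p * β i + (p - 1) := by
  simp [up]

lemma up_injective : Function.Injective (up p : (Fin n →₀ ℕ) → _) := by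
  intro a b h
  ext i
  have h1 := DFunLike.congr_fun h i
  rw [up_apply, up_apply] at h1
  have : p * a i = p * b i := by omega
  exact Nat.eq_of_mul_eq_mul_left hp.out.pos this

/-- The operator `u`: the coefficient of `x^β` in `u P` is the `p`-th root of the coefficient of
`x^{pβ + p - 1}` in `P`. -/
noncomputable def u (P : MvPolynomial (Fin n) k) : MvPolynomial (Fin n) k :=
  AddMonoidAlgebra.ofCoeff (Finsupp.mapRange (frobeniusEquiv k p).symm (map_zero _)
    (Finsupp.comapDomain (up p) (AddMonoidAlgebra.coeff P) up_injective.injOn))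

lemma coeff_u (P : MvPolynomial (Fin n) k) (β : Fin n →₀ ℕ) :
    coeff β (u (p := p) P) = (frobeniusEquiv k p).symm (coeff (up p β) P) := by
  rfl

lemma u_add (P Q : MvPolynomial (Fin n) k) : u (p := p) (P + Q) = u (p := p) P + u (p := p) Q := by
  ext β
  simp [coeff_u]

/-- `u` as an additive map. -/
noncomputable def uHom : MvPolynomial (Fin n) k →+ MvPolynomial (Fin n) k where
  toFun := u (p := p)
  map_zero' := by ext β; simp [coeff_u]
  map_add' := u_add

lemma uHom_apply (P : MvPolynomial (Fin n) k) : uHom (p := p) P = u (p := p) P := rfl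

lemma u_zero : u (p := p) (0 : MvPolynomial (Fin n) k) = 0 := (uHom (p := p)).map_zero
lemma u_neg (P : MvPolynomial (Fin n) k) : u (p := p) (-P) = - u (p := p) P :=
  (uHom (p := p)).map_neg P
lemma u_sub (P Q : MvPolynomial (Fin n) k) :
    u (p := p) (P - Q) = u (p := p) P - u (p := p) Q := (uHom (p := p)).map_sub P Q
lemma u_sum {α : Type*} (s : Finset α) (P : α → MvPolynomial (Fin n) k) :
    u (p := p) (∑ a ∈ s, P a) = ∑ a ∈ s, u (p := p) (P a) := map_sum (uHom (p := p)) P s

/-- The projection-like formula `u (Q^p P) = Q u(P)`. -/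
lemma u_pow_mul (Q P : MvPolynomial (Fin n) k) :
    u (p := p) (Q ^ p * P) = Q * u (p := p) P := by
  haveI : CharP (MvPolynomial (Fin n) k) p := inferInstance
  induction Q using MvPolynomial.induction_on' with
  | monomial m c =>
    ext β
    rw [coeff_u, monomial_pow, coeff_monomial_mul', coeff_monomial_mul']
    have key : p • m ≤ up p β ↔ m ≤ β := by
      constructor
      · intro h i
        have h1 := h i
        simp only [Finsupp.smul_apply, smul_eq_mul, up_apply] at h1
        by_contra hlt
        push Not at hlt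
        have : p * (β i + 1) ≤ p * m i := Nat.mul_le_mul_left p hlt
        have hpp := hp.out.pos
        rw [Nat.mul_add] at this
        omega
      · intro h i
        have h1 := h i
        simp only [Finsupp.smul_apply, smul_eq_mul, up_apply]
        have : p * m i ≤ p * β i := Nat.mul_le_mul_left p h1
        omega
    by_cases h : m ≤ β
    · rw [if_pos (key.2 h), if_pos h, map_mul, coeff_u]
      have e1 : (frobeniusEquiv k p).symm (c ^ p) = c := by
        exact (frobeniusEquiv k p).symm_apply_apply c
      have e2 : up p β - p • m = up p (β - m) := by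
        ext i
        have h1 := h i
        simp only [Finsupp.tsub_apply, Finsupp.smul_apply, smul_eq_mul, up_apply]
        have h2 : p * m i ≤ p * β i := Nat.mul_le_mul_left p h1
        rw [Nat.mul_sub]
        omega
      rw [e1, e2]
    · rw [if_neg (fun h' => h (key.1 h')), if_neg h, map_zero]
  | add P₁ P₂ h₁ h₂ =>
    rw [add_pow_char, add_mul, u_add, h₁, h₂, add_mul]

lemma u_mul_pow (Q P : MvPolynomial (Fin n) k) :
    u (p := p) (P * Q ^ p) = Q * u (p := p) P := by
  rw [mul_comm, u_pow_mul]

end Q43.QF
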